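import Pool.Agent.Helper876.RP.Final

/-- There are a closed fake surface `P` with `P × I` collapsible and a piecewise-linear embedding of
punctured real projective 3-space in `P × I`. -/
theorem Pool.Agent.Results.MP_e9dd47_gt.FakeSurface.result :
    ∃ P : Set (Fin 11 → ℝ), RPF.IsFakeSurface P ∧
      RPF.IsCollapsible (P ×ˢ Set.Icc (0 : ℝ) 1) ∧
      RPF.EmbedsPuncturedRP3 (P ×ˢ Set.Icc (0 : ℝ) 1) :=
  ⟨RPF.P11, RPF.p11_fake, RPF.p11_collapsible, RPF.p11_embeds⟩
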